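import Pool.Agent.Y45.MON.StmG

/-!
# Project MON, job G4: conjugacy modulo `M` gives equalities in `G` for large powers
-/

set_option autoImplicit false

namespace Pool.Agent.Y108.MON

open Pool.Agent.TH54.BU Pool.Agent.Y45.MON

/-- the vertices of the polygon -/
def pv {G : Type} [Group G] (h a b : G) (k : ℕ) : G :=
  if k = 0 then 1 else if k = 1 then h else if k = 2 then h * a else if k = 3 then h * a * h⁻¹
  else h * a * h⁻¹ * b⁻¹

/-- the relations of consecutive vertices -/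
def rel {G : Type} [Group G] (E : GH G) (h a b : G) (k : ℕ) (p q : G) : Prop :=
  if k = 1 then p⁻¹ * q = a else if k = 3 then p⁻¹ * q = b⁻¹ else E.d p q ≤ E.len h

theorem t_rgen (hC : CloseStmt) : RgenStmt := by
  intro G _ H c θ T L n M F E Θ C A W W' h hT hA hn hW hW' hM N
  have := F.normal
  have hm0 : h * W ^ N * h⁻¹ * (W' ^ N)⁻¹ ∈ M := by
    have e1 : ((h * W * h⁻¹ : G) : G ⧸ M) = (W' : G ⧸ M) := by
      rw [← mul_inv_eq_one]
      rw [← QuotientGroup.mk_inv, ← QuotientGroup.mk_mul]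
      exact (QuotientGroup.eq_one_iff _).2 hM
    have e2 : ((h * W ^ N * h⁻¹ : G) : G ⧸ M) = ((W' ^ N : G) : G ⧸ M) := by
      rw [← conj_pow, QuotientGroup.mk_pow, QuotientGroup.mk_pow, e1]
    rw [← QuotientGroup.eq_one_iff, QuotientGroup.mk_mul, QuotientGroup.mk_inv, e2, mul_inv_cancel]
  have key := hC G H c θ T L n M F A 4
    (fun i => by
      have := hn i
      have h0 : 0 ≤ T * (2 * c + 1) := Nat.zero_le _
      omega)
    (fun i => by
      have := hn i
      omega)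
    (rel E h (W ^ N) (W' ^ N)) ?_ ?_ (pv h (W ^ N) (W' ^ N)) ?_ ⟨_, hm0, ?_⟩
  · obtain ⟨P', h1, h2, h3⟩ := key
    have r0 : E.d (P' 0) (P' 1) ≤ E.len h := h1 0 (by norm_num)
    have r1 : (P' 1)⁻¹ * P' 2 = W ^ N := h1 1 (by norm_num)
    have r2 : E.d (P' 2) (P' 3) ≤ E.len h := h1 2 (by norm_num)
    have r3 : (P' 3)⁻¹ * P' 4 = (W' ^ N)⁻¹ := h1 3 (by norm_num)
    obtain ⟨m0, hm0, e0⟩ := h3 0 (by norm_num)
    obtain ⟨m1, hm1, e1⟩ := h3 1 (by norm_num)
    have e0' : P' 0 = m0 := by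
      rw [e0]
      exact mul_one _
    have e1' : P' 1 = m1 * h := e1
    refine ⟨m0⁻¹ * m1, M.mul_mem (M.inv_mem hm0) hm1, (P' 3)⁻¹ * P' 2, ?_, ?_, ?_⟩
    · have g1 : m0⁻¹ * m1 * h = (P' 0)⁻¹ * P' 1 := by rw [e0', e1', mul_assoc]
      have g2 : W' ^ N = (P' 0)⁻¹ * P' 3 := by
        rw [← inv_inj, ← r3, h2]
        group
      rw [g1, ← r1, g2]
      group
    · have g1 : m0⁻¹ * m1 * h = (P' 0)⁻¹ * P' 1 := by rw [e0', e1', mul_assoc]
      rw [g1]
      exact r0
    · rw [E.d_comm] at r2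
      exact r2
  · intro j _ m _ a b hab
    unfold rel at hab ⊢
    split_ifs at hab ⊢ with c1 c2
    · rw [← hab]; group
    · rw [← hab]; group
    · rwa [E.d_mul]
  · intro j _ a b hab i u hs l
    unfold rel at hab ⊢
    split_ifs at hab ⊢ with c1 c2
    · exfalso
      have e1 : b = a * W ^ N := by rw [← hab]; group
      have e2 : L.s i u a b = L.s i (a⁻¹ * u) 1 (W ^ N) := by
        have := L.wf_s_mul i a (a⁻¹ * u) 1 (W ^ N)
        rw [mul_one, mul_inv_cancel_left] at this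
        rw [e1, this]
      rw [e2] at hs
      exact absurd (hW N i (a⁻¹ * u)) (not_lt.2 hs)
    · exfalso
      have e1 : a = b * W' ^ N := by
        have : b = a * (W' ^ N)⁻¹ := by rw [← hab]; group
        rw [this]; group
      have e2 : L.s i u b a = L.s i (b⁻¹ * u) 1 (W' ^ N) := by
        have := L.wf_s_mul i b (b⁻¹ * u) 1 (W' ^ N)
        rw [mul_one, mul_inv_cancel_left] at this
        rw [← this, ← e1]
      rw [L.wf_s_symm i u b a, abs_neg, e2] at hs
      exact absurd (hW' N i (b⁻¹ * u)) (not_lt.2 hs)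
    · have hD : Θ ≤ L.D i u a b := by
        refine L.cl_D_ge i u a b Θ ?_
        rw [Int.abs_eq_natAbs] at hs
        have : A ≤ (L.s i u a b).natAbs := by exact_mod_cast hs
        omega
      exact (L.rot_cone C (n := 0) hD _).trans hab
  · intro j hj
    have hcases : j = 0 ∨ j = 1 ∨ j = 2 ∨ j = 3 := by omega
    rcases hcases with rfl | rfl | rfl | rfl
    · show E.d 1 h ≤ E.len h
      rw [E.d_one]
    · show h⁻¹ * (h * W ^ N) = W ^ N
      group
    · show E.d (h * W ^ N) (h * W ^ N * h⁻¹) ≤ E.len h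
      unfold GH.d
      rw [inv_mul_cancel_left, E.len_inv]
    · show (h * W ^ N * h⁻¹)⁻¹ * (h * W ^ N * h⁻¹ * (W' ^ N)⁻¹) = (W' ^ N)⁻¹
      group
  · show h * W ^ N * h⁻¹ * (W' ^ N)⁻¹ = h * W ^ N * h⁻¹ * (W' ^ N)⁻¹ * 1
    rw [mul_one]

end Pool.Agent.Y108.MON
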